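import Pool.Agent.H683.CV.Run

/-!
# Completeness: a coloring gives a small certificate
-/

set_option autoImplicit false

namespace Pool.Agent.H683.CV

open Pool.Agent.NPC Pool.Agent.H633R2

theorem length_le_of_nodup {S : List ℕ} {n : ℕ} (h1 : S.Nodup) (h2 : ∀ v ∈ S, v < n) :
    S.length ≤ n := by
  have h3 : S.toFinset ⊆ Finset.range n := fun v hv =>
    Finset.mem_range.2 (h2 v (List.mem_toFinset.1 hv))
  have h4 := Finset.card_le_card h3
  rw [List.toFinset_card_of_nodup h1, Finset.card_range] at h4
  exact h4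

theorem sz_natList_le' (l : List ℕ) (T : ℕ) (h : ∀ x ∈ l, x ≤ T) :
    sz l ≤ l.length * (4 * T + 2) + 1 := by
  refine sz_le_length_mul l (4 * T + 1) fun x hx => ?_
  refine (sz_nat_le x).trans ?_
  have h1 : x.size ≤ x := by
    rw [Nat.size_le]
    exact Nat.lt_two_pow_self
  have := h x hx
  omega

/-- The bound on the certificates. -/
def bd (q : ℕ) : ℕ := 14 * (q + 1) ^ 3

theorem getD_map_range (p : ℕ) (f : ℕ → ℕ) (j : ℕ) (hj : j < p) :
    ((List.range p).map f).getD j 0 = f j := by
  rw [List.getD_eq_getElem _ _ (by simpa using hj)]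
  simp

theorem complete (hG : S_GREEDY) (hCl : S_CLUS) (hE : S_EXT1) (hS : S_STEP)
    (M : List (List Bool)) (B : List ℕ) (h : Bcp (M, B)) :
    ∃ W : Cert, sz W ≤ bd (gS M).length ∧
      ∀ w : List Unit, 2 ^ (gS M).length ≤ w.length → chk M B w W = true := by
  obtain ⟨φ, hφ1, hφ2⟩ := h
  simp only at φ hφ1 hφ2
  set S := gS M with hSdef
  obtain ⟨⟨hnd, hlt, hcl⟩, -⟩ := hG M
  rw [← hSdef] at hnd hlt hcl
  have hqn : S.length ≤ M.length := length_le_of_nodup hnd hlt
  set f : ℕ → ℕ := fun v => if h : v < M.length then (φ ⟨v, h⟩ : ℕ) else 0 with hf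
  have hfv : ∀ (v : ℕ) (h : v < M.length), f v = φ ⟨v, h⟩ := fun v h => by rw [hf]; simp only [h, dif_pos]
  set L := (S.map f).dedup with hL
  have hLnd : L.Nodup := List.nodup_dedup _
  have hLmem : ∀ v ∈ S, f v ∈ L := fun v hv =>
    List.mem_dedup.2 (List.mem_map.2 ⟨v, hv, rfl⟩)
  set p := L.length with hp
  have hpq : p ≤ S.length := by
    rw [hp, hL]
    exact (List.dedup_sublist _).length_le.trans (by rw [List.length_map])
  set cm := S.map (fun v => L.idxOf (f v)) with hcm
  set col : ℕ → ℕ := fun j => L.getD j 0 with hcol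
  have hZ : ∀ z ∈ S.zip cm, z.1 ∈ S ∧ z.2 = L.idxOf (f z.1) := by
    intro z hz
    rw [hcm, List.zip_map_right] at hz
    obtain ⟨y, hy, rfl⟩ := List.mem_map.1 hz
    obtain ⟨y1, y2⟩ := y
    have h1 := List.of_mem_zip hy
    have h2 : y1 = y2 := by
      obtain ⟨i, hi, he⟩ := List.mem_iff_getElem.1 hy
      rw [List.getElem_zip] at he
      have e3 := Prod.ext_iff.1 he
      exact e3.1.symm.trans e3.2
    subst h2
    exact ⟨h1.1, rfl⟩
  have hZp : ∀ z ∈ S.zip cm, z.2 < p ∧ col z.2 = f z.1 := by
    intro z hz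
    obtain ⟨h1, h2⟩ := hZ z hz
    have h3 : L.idxOf (f z.1) < L.length := List.idxOf_lt_length_of_mem (hLmem _ h1)
    refine ⟨by rw [h2]; exact h3, ?_⟩
    rw [hcol, h2]
    simp only
    rw [List.getD_eq_getElem _ _ h3, List.getElem_idxOf]
  have hadj : ∀ u < M.length, ∀ v < M.length, adj M u v = true → f u ≠ f v := by
    intro u hu v hv ha he
    rw [hfv u hu, hfv v hv] at he
    unfold adj at ha
    rw [Bool.and_eq_true, decide_eq_true_iff, Bool.or_eq_true] at ha
    exact hφ1 ⟨u, hu⟩ ⟨v, hv⟩ ⟨fun e => ha.1 (congrArg Fin.val e), ha.2⟩ (Fin.ext he)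
  have hokZ : okZ M (S.zip cm) p = true := by
    unfold okZ
    rw [List.all_eq_true]
    intro z hz
    rw [Bool.and_eq_true, decide_eq_true_iff, List.all_eq_true]
    refine ⟨(hZp z hz).1, fun y hy => ?_⟩
    rw [Bool.not_eq_true', Bool.and_eq_false_iff, decide_eq_false_iff_not]
    by_cases he : z.2 = y.2
    · right
      have h1 : f z.1 = f y.1 := by rw [← (hZp z hz).2, ← (hZp y hy).2, he]
      rw [← Bool.not_eq_true]
      exact fun ha => hadj _ (hlt _ (hZ z hz).1) _ (hlt _ (hZ y hy).1) ha h1
    · exact Or.inl he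
  have hcolmem : ∀ j < p, ∃ v ∈ S, f v = col j := by
    intro j hj
    rw [hcol]
    simp only
    rw [List.getD_eq_getElem _ _ hj]
    have h1 : ∀ x ∈ L, x ∈ S.map f := fun x hx => by
      rw [hL] at hx
      exact List.mem_dedup.1 hx
    exact List.mem_map.1 (h1 _ (List.getElem_mem hj))
  set xf : ℕ → ℕ := fun j => min (B.getD (col j) 0) M.length with hxf
  have hxn : ∀ j, xf j ≤ M.length := fun j => min_le_right _ _
  obtain ⟨cl, e, hc1, hc2, hc3, hc4⟩ := hCl p S.length xf
  set x' := (List.range p).map xf with hx'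
  have hx'j : ∀ j < p, x'.getD j 0 = xf j := fun j hj => getD_map_range p xf j hj
  have hsel : IsSel M.length B p col x' := by
    refine ⟨fun j hj => ?_, fun i hi j hj he => ?_, fun j hj => hx'j j hj⟩
    · obtain ⟨v, hv, he⟩ := hcolmem j hj
      rw [← he, hfv v (hlt v hv)]
      exact (φ ⟨v, hlt v hv⟩).2
    · rw [hcol] at he
      simp only at he
      rw [List.getD_eq_getElem _ _ hi, List.getD_eq_getElem _ _ hj] at he
      exact (List.Nodup.getElem_inj_iff hLnd).1 he
  have hiscol : IsCol M B (S.zip cm) col f := by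
    refine ⟨fun v hv => ?_, hadj, fun i hi => ?_, fun z hz => (hZp z hz).2.symm⟩
    · rw [hfv v hv]
      exact (φ ⟨v, hv⟩).2
    · have h4 := hφ2 ⟨i, hi⟩
      rw [List.getD_eq_getElem _ _ hi]
      refine le_trans (le_of_eq ?_) h4
      rw [← Finset.card_map Fin.valEmbedding]
      congr 1
      ext v
      simp only [Finset.mem_map, Finset.mem_filter, Finset.mem_univ, true_and, Finset.mem_range,
        Fin.valEmbedding_apply]
      constructor
      · rintro ⟨hv, he⟩
        exact ⟨⟨v, hv⟩, Fin.ext (by rw [← hfv v hv]; exact he), rfl⟩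
      · rintro ⟨u, hu, rfl⟩
        exact ⟨u.2, by rw [hfv u u.2]; exact congrArg Fin.val hu⟩
  refine ⟨(cm, (List.range p).map cl, (List.range p).map e), ?_, fun w hw => ?_⟩
  · have s1 := sz_natList_le' cm S.length (by
      intro x hx
      rw [hcm] at hx
      obtain ⟨v, hv, rfl⟩ := List.mem_map.1 hx
      have h3 : L.idxOf (f v) < L.length := List.idxOf_lt_length_of_mem (hLmem _ hv)
      omega)
    have s2 := sz_natList_le' ((List.range p).map cl) S.length (by
      intro x hx
      obtain ⟨v, hv, rfl⟩ := List.mem_map.1 hx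
      have := hc1 v (List.mem_range.1 hv)
      omega)
    have s3 := sz_natList_le' ((List.range p).map e) (S.length * S.length) (by
      intro x hx
      obtain ⟨v, hv, rfl⟩ := List.mem_map.1 hx
      exact (hc2 v (List.mem_range.1 hv)).1.trans (Nat.mul_le_mul_right _ hpq))
    rw [List.length_map, List.length_range] at s2 s3
    have s4 : cm.length = S.length := by rw [hcm, List.length_map]
    rw [s4] at s1
    rw [sz_pair, sz_pair]
    unfold bd
    have t2 : p * (4 * S.length + 2) ≤ S.length * (4 * S.length + 2) :=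
      Nat.mul_le_mul_right _ hpq
    have t3 : p * (4 * (S.length * S.length) + 2) ≤ S.length * (4 * (S.length * S.length) + 2) :=
      Nat.mul_le_mul_right _ hpq
    have t4 : 0 ≤ S.length := Nat.zero_le _
    nlinarith [Nat.zero_le (S.length * S.length), Nat.zero_le (S.length * S.length * S.length)]
  · have hlen : ((List.range p).map e).length = p := by rw [List.length_map, List.length_range]
    unfold chk
    simp only
    rw [← hSdef, hlen]
    have hwp : 2 ^ p ≤ w.length := le_trans (Nat.pow_le_pow_right (by norm_num) hpq) hw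
    have s4 : cm.length = S.length := by rw [hcm, List.length_map]
    rw [Bool.and_eq_true, Bool.and_eq_true, Bool.and_eq_true, Bool.and_eq_true,
      decide_eq_true_iff, decide_eq_true_iff, decide_eq_true_iff]
    refine ⟨⟨⟨⟨s4, hpq⟩, hwp⟩, hokZ⟩, ?_⟩
    have hok : ok M B S (S.zip cm) ((List.range p).map cl) p w x' = true := by
      rw [ok_iff _ _ _ _ _ _ _ _ hwp]
      refine ⟨fun i hi j hj hc => ?_, fun j hj => ?_,
        hE M B S cm x' p w col f ⟨hnd, hlt, hcl⟩ s4 hokZ hwp hsel hiscol⟩
      · rw [getD_map_range _ _ _ hi, getD_map_range _ _ _ hj] at hc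
        rw [hx'j i hi, hx'j j hj]
        exact hc4 i hi j hj hc
      · rw [mul_eq]
        have h5 : ((List.range p).filter fun i => decide (((List.range p).map cl).getD i 0 =
            ((List.range p).map cl).getD j 0) && decide (x'.getD i 0 = x'.getD j 0)).length ≤
            ((Finset.range p).filter fun i => x'.getD i 0 = x'.getD j 0).card := by
          rw [Finset.card_def, Finset.filter_val, Finset.range_val, ← Multiset.coe_range,
            Multiset.filter_coe, Multiset.coe_card]
          refine List.Sublist.length_le (List.monotone_filter_right _ fun i hi => ?_)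
          rw [Bool.and_eq_true] at hi
          exact hi.2
        refine h5.trans (Finset.card_le_card_of_injOn col (fun i hi => ?_) (fun i hi k hk he => ?_))
        · rw [Finset.coe_filter, Set.mem_ofPred_eq, Finset.mem_range] at hi
          rw [Finset.coe_filter, Set.mem_ofPred_eq, Finset.mem_range]
          refine ⟨hsel.1 i hi.1, ?_⟩
          rw [← hi.2, hx'j i hi.1]
        · rw [Finset.coe_filter, Set.mem_ofPred_eq, Finset.mem_range] at hi hk
          exact hsel.2.1 i hi.1 k hk.1 he
    refine run_ok hS M B S (S.zip cm) ((List.range p).map cl) p w x' hwp ?_ hok _ _ ?_ ?_ ?_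
    · rw [List.length_zip]; exact min_le_left _ _
    · intro j hj
      rw [getD_map_range _ _ _ hj, hx'j j hj]
      exact (hc2 j hj).2
    · intro i hi j hj hc
      rw [getD_map_range _ _ _ hi, getD_map_range _ _ _ hj] at hc
      rw [hx'j i hi, hx'j j hj, getD_map_range _ _ _ hi, getD_map_range _ _ _ hj]
      exact hc3 i hi j hj hc
    · have h6 : ∑ j ∈ Finset.range p, (x'.getD j 0 - ((List.range p).map e).getD j 0) ≤
          ∑ _j ∈ Finset.range p, M.length := Finset.sum_le_sum fun j hj => by
        rw [hx'j j (Finset.mem_range.1 hj)]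
        exact (Nat.sub_le _ _).trans (hxn j)
      rw [Finset.sum_const, Finset.card_range, smul_eq_mul] at h6
      have h7 : p * M.length ≤ M.length * M.length := Nat.mul_le_mul_right _ (hpq.trans hqn)
      omega

end Pool.Agent.H683.CV
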