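import Pool.Graph.R_seed8.H633R2.FptDefs

/-!
# Budgeted graph coloring and the cluster vertex deletion number: definitions

A graph is given by its adjacency matrix (a list of rows), as in `GraphDefs`. The machine model,
the encodings and fixed-parameter tractability (`IsFpt`) are those of `FptDefs`.
-/

set_option autoImplicit false

namespace Pool.Agent.H683.CV

open Pool.Agent.NPC Pool.Agent.H633R2

/-- The Budgeted Coloring Problem, instances `(G, B)` with a list `B = [b_0, …, b_{c-1}]` of
budgets: is there a proper coloring `φ` of the vertices with the `c` colors `0, …, c - 1` such that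
color `i` is used at most `b_i` times, for all `i`? -/
def Bcp (x : List (List Bool) × List ℕ) : Prop :=
  ∃ φ : Fin x.1.length → Fin x.2.length, (∀ u v, (graphOf x.1).Adj u v → φ u ≠ φ v) ∧
    ∀ i, (Finset.univ.filter fun v => φ v = i).card ≤ x.2.get i

/-- The graph `G - S` is a cluster graph, that is, a disjoint union of cliques: one can number the
cliques (by `f`) such that two different vertices outside `S` are adjacent iff they lie in the
clique with the same number. -/
def IsCvdSet (M : List (List Bool)) (S : Finset (Fin M.length)) : Prop :=
  ∃ f : Fin M.length → ℕ, ∀ u v, u ∉ S → v ∉ S → u ≠ v → ((graphOf M).Adj u v ↔ f u = f v)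

/-- The cluster vertex deletion number: the least size of a set `S` of vertices such that `G - S`
is a cluster graph. -/
noncomputable def cvd (M : List (List Bool)) : ℕ :=
  sInf {k | ∃ S : Finset (Fin M.length), IsCvdSet M S ∧ S.card = k}

end Pool.Agent.H683.CV
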