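import Pool.Agent.H683.CV.Stm
import Pool.Graph.R_seed8.H628R2.FPTW
import Pool.Graph.R_seed8.H633R2.Fpt

/-!
# Budgeted graph coloring: statements about polynomial time

The techniques are those of `Pool/Agent/H683/BW/PolyAlg.lean` (same machine model), which has
`poly_entry`, a run with a size bound (`poly_revChain`, `poly_runF`), filters, `find?` etc.
-/

set_option autoImplicit false

namespace Pool.Agent.H683.CV

open Pool.Agent.NPC Pool.Agent.H633R2

/-- The greedy set is computed in polynomial time (`Poly.iterLen`; the length of the list is at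
most `3 j` after `j` steps and all entries are `< n`). -/
def S_PGS : Prop := ∀ (α : Type) [TEnc α] (M : α → List (List Bool)), Poly M →
  Poly (fun a => gS (M a))

/-- `val` is computed in polynomial time. Note that `2 ^ p` is a number with `p + 1` bits
(`Poly.valBits`, see `fptTime_expPad` in `BW/Final.lean`), and `subs p w` has length at most
`w.length`. -/
def S_PVAL : Prop := ∀ (α : Type) [TEnc α] (M : α → List (List Bool)) (S : α → List ℕ)
  (Z : α → List (ℕ × ℕ)) (p : α → ℕ) (w : α → List Unit) (r A : α → ℕ), Poly M → Poly S →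
  Poly Z → UPoly p → Poly w → Poly r → Poly A →
  Poly (fun a => val (M a) (S a) (Z a) (p a) (w a) (r a) (A a))

/-- `viol` is computed in polynomial time (use `S_PVAL`). -/
def S_PVIOL : Prop := ∀ (α : Type) [TEnc α] (M : α → List (List Bool)) (B S : α → List ℕ)
  (Z : α → List (ℕ × ℕ)) (p : α → ℕ) (w : α → List Unit) (x : α → List ℕ) (t A : α → ℕ),
  Poly M → Poly B → Poly S → Poly Z → UPoly p → Poly w → Poly x → Poly t → Poly A →
  Poly (fun a => viol (M a) (B a) (S a) (Z a) (p a) (w a) (x a) (t a) (A a))

/-- One step is computed in polynomial time (use `S_PVIOL`). -/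
def S_PSTP : Prop := ∀ (α : Type) [TEnc α] (M : α → List (List Bool)) (B S : α → List ℕ)
  (Z : α → List (ℕ × ℕ)) (cl : α → List ℕ) (p : α → ℕ) (w : α → List Unit) (x : α → List ℕ),
  Poly M → Poly B → Poly S → Poly Z → Poly cl → UPoly p → Poly w → Poly x →
  Poly (fun a => stp (M a) (B a) (S a) (Z a) (cl a) (p a) (w a) (x a))

/-- The final test is computed in polynomial time (use `S_PVIOL`). -/
def S_POK : Prop := ∀ (α : Type) [TEnc α] (M : α → List (List Bool)) (B S : α → List ℕ)
  (Z : α → List (ℕ × ℕ)) (cl : α → List ℕ) (p : α → ℕ) (w : α → List Unit) (x : α → List ℕ),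
  Poly M → Poly B → Poly S → Poly Z → Poly cl → UPoly p → Poly w → Poly x →
  Poly (fun a => ok (M a) (B a) (S a) (Z a) (cl a) (p a) (w a) (x a))

/-- The whole run is computed in polynomial time (use `S_PSTP` and `Poly.iterLen` with a list of
length `n * n + 1`; after `j` steps the state is the initial one, or a list of `p` numbers each of
which is at most `j` plus the old one). -/
def S_PRUN : Prop := ∀ (α : Type) [TEnc α] (M : α → List (List Bool)) (B S : α → List ℕ)
  (Z : α → List (ℕ × ℕ)) (cl : α → List ℕ) (p : α → ℕ) (w : α → List Unit) (x : α → List ℕ),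
  Poly M → Poly B → Poly S → Poly Z → Poly cl → UPoly p → Poly w → Poly x →
  Poly (fun a => (stp (M a) (B a) (S a) (Z a) (cl a) (p a) (w a))^[(M a).length * (M a).length + 1]
    (x a))

end Pool.Agent.H683.CV
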