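import Pool.Agent.H683.CV.Complete
import Pool.Agent.H683.CV.PLem
import Pool.Agent.H683.BW.Final
import Pool.Agent.H167.CV_PVIOL
import Pool.Agent.H707.CV_PVAL
import Pool.Agent.H772.CV_PGS
import Pool.Agent.H294.CV_PRUN
import Pool.Agent.H169.CV_TOP
import Pool.Agent.H178.CV_STEP
import Pool.Agent.H261.CV_GREEDY
import Pool.Agent.H274.CV_BITS
import Pool.Agent.H322.CV_HORN
import Pool.Agent.H784.CV_HALL2
import Pool.Agent.H86.CV_HALL1
import Pool.Agent.H249.CV_VAL
import Pool.Agent.H409.CV_CLUS
import Pool.Agent.H672.CV_COL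

/-!
# The Budgeted Coloring Problem is fixed-parameter tractable in the cluster vertex deletion number
-/

set_option autoImplicit false

namespace Pool.Agent.NPC.H683CV

open Turing Pool.Agent.H683.CV Pool.Agent.H633R2 Pool.Agent.NPC.H683BW

variable {α : Type} [TEnc α]

theorem poly_okZ {M : α → List (List Bool)} {Z : α → List (ℕ × ℕ)} {p : α → ℕ} (hM : Poly M)
    (hZ : Poly Z) (hp : Poly p) : Poly (fun a => okZ (M a) (Z a) (p a)) := by
  unfold okZ
  refine Poly.all (l := Z) (p := fun a z => decide (z.2 < p a) &&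
    (Z a).all fun y => !(decide (z.2 = y.2) && adj (M a) z.1 y.1)) hZ (Poly.and ?_ ?_)
  · exact Poly.decide_lt (Poly.snd (Poly.snd Poly.id)) (hp.comp (Poly.fst Poly.id))
  · refine Poly.all (l := fun x : α × (ℕ × ℕ) => Z x.1)
      (p := fun x y => !(decide (x.2.2 = y.2) && adj (M x.1) x.2.1 y.1))
      (hZ.comp (Poly.fst Poly.id)) ?_
    have h1 : Poly (fun x : (α × (ℕ × ℕ)) × (ℕ × ℕ) => x.1.2) := Poly.snd (Poly.fst Poly.id)
    have h2 : Poly (fun x : (α × (ℕ × ℕ)) × (ℕ × ℕ) => x.2) := Poly.snd Poly.id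
    have h3 : Poly (fun x : (α × (ℕ × ℕ)) × (ℕ × ℕ) => M x.1.1) :=
      hM.comp (Poly.fst (Poly.fst Poly.id))
    exact Poly.not (Poly.and (Poly.decide_eq (Poly.snd h1) (Poly.snd h2))
      (H167CV.p_adj h3 (Poly.fst h1) (Poly.fst h2)))

/-- The verifier is polynomial. -/
theorem poly_chk (hG : S_PGS) (hOK : S_POK) (hR : S_PRUN) {M : α → List (List Bool)}
    {B : α → List ℕ} {w : α → List Unit} {W : α → Cert} (hM : Poly M) (hB : Poly B) (hw : Poly w)
    (hW : Poly W) : Poly (fun a => chk (M a) (B a) (w a) (W a)) := by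
  unfold chk
  have hS : Poly (fun a => gS (M a)) := hG α M hM
  have hcm : Poly (fun a => (W a).1) := Poly.fst hW
  have hcl : Poly (fun a => (W a).2.1) := Poly.fst (Poly.snd hW)
  have he : Poly (fun a => (W a).2.2) := Poly.snd (Poly.snd hW)
  have hZ : Poly (fun a => (gS (M a)).zip (W a).1) := Poly.zip hS hcm
  have hp : UPoly (fun a => (W a).2.2.length) := UPoly.length he
  refine Poly.and (Poly.and (Poly.and (Poly.and ?_ ?_) ?_) ?_) ?_
  · exact Poly.decide_eq (Poly.length hcm) (Poly.length hS)
  · exact Poly.decide_le (Poly.length he) (Poly.length hS)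
  · exact Poly.decide_le (H707CVPVAL.poly_two_pow hp) (Poly.length hw)
  · exact poly_okZ hM hZ (Poly.length he)
  · exact hOK α M B (fun a => gS (M a)) (fun a => (gS (M a)).zip (W a).1) (fun a => (W a).2.1)
      (fun a => (W a).2.2.length) w _ hM hB hS hZ hcl hp hw
      (hR α M B (fun a => gS (M a)) (fun a => (gS (M a)).zip (W a).1) (fun a => (W a).2.1)
        (fun a => (W a).2.2.length) w (fun a => (W a).2.2) hM hB hS hZ hcl hp hw he)

theorem poly_dec (hG : S_PGS) (hOK : S_POK) (hR : S_PRUN) {M : α → List (List Bool)}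
    {B : α → List ℕ} {w : α → List Unit} (hM : Poly M) (hB : Poly B) (hw : Poly w) :
    Poly (fun a => dec (M a) (B a) (w a)) := by
  unfold dec
  refine Poly.any (l := fun a => List.range (w a).length) (p := fun a c =>
    match unbits Cert c.bits.dropLast with
    | none => false
    | some W => chk (M a) (B a) (w a) W) (UPoly.range (UPoly.length hw)) ?_
  refine (Poly.optCases (o := fun x : α × ℕ => unbits Cert x.2.bits.dropLast)
    (g := fun _ => false) (h := fun x W => chk (M x.1) (B x.1) (w x.1) W) ?_ (Poly.const false)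
    ?_).congr fun x => ?_
  · refine poly_unbits.comp ?_
    refine (Poly.reverse (Poly.tail (Poly.reverse (Poly.natBits (n := fun x : α × ℕ => x.2)
      (Poly.snd Poly.id))))).congr fun x => ?_
    rw [← List.dropLast_reverse, List.reverse_reverse]
  · exact poly_chk hG hOK hR (hM.comp (Poly.fst (Poly.fst Poly.id)))
      (hB.comp (Poly.fst (Poly.fst Poly.id))) (hw.comp (Poly.fst (Poly.fst Poly.id)))
      (Poly.snd Poly.id)
  · cases unbits Cert x.2.bits.dropLast <;> rfl

/-- A small enough certificate is found if the pad is long enough. -/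
theorem dec_of_chk (M : List (List Bool)) (B : List ℕ) (w : List Unit) (W : Cert)
    (hW : chk M B w W = true) (hw : 2 ^ (sz W + 1) ≤ w.length) : dec M B w = true := by
  unfold dec
  rw [List.any_eq_true]
  refine ⟨valB (bits W ++ [true]), ?_, ?_⟩
  · rw [List.mem_range]
    refine (valB_lt _).trans_le ?_
    rw [List.length_append, bits_length]
    exact hw
  · rw [Pool.Agent.H683.BW.bits_valB_concat, List.dropLast_concat, unbits_bits]
    exact hW

theorem chk_of_dec (M : List (List Bool)) (B : List ℕ) (w : List Unit) (h : dec M B w = true) :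
    ∃ W : Cert, chk M B w W = true := by
  unfold dec at h
  rw [List.any_eq_true] at h
  obtain ⟨c, -, hc⟩ := h
  rcases hu : unbits Cert c.bits.dropLast with _ | W
  · rw [hu] at hc; exact absurd hc (by simp)
  · rw [hu] at hc; exact ⟨W, hc⟩

/-- Instances. -/
abbrev Inst : Type := List (List Bool) × List ℕ

/-- The exponent of the pad. -/
def qk (M : List (List Bool)) : ℕ := bd (gS M).length + 1

/-- The pad. -/
def pad (M : List (List Bool)) : List Unit := expPad (List.replicate (qk M) ())

theorem pad_length (M : List (List Bool)) : (pad M).length = 2 ^ qk M := by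
  unfold pad
  rw [expPad_length, List.length_replicate]

/-- The parameter. -/
noncomputable def par (x : Inst) : ℕ := cvd x.1

theorem computable_q : Computable (fun w : ℕ => 14 * (3 * w + 1) ^ 3 + 1) := by
  apply Primrec.to_comp
  have hpow : Primrec₂ (fun a b : ℕ => a ^ b) := Primrec₂.unpaired'.1 Nat.Primrec.pow
  exact Primrec.nat_add.comp (Primrec.nat_mul.comp (Primrec.const 14)
    (hpow.comp (Primrec.nat_add.comp (Primrec.nat_mul.comp (Primrec.const 3) Primrec.id)
      (Primrec.const 1)) (Primrec.const 3))) (Primrec.const 1)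

theorem qk_le (hG : S_GREEDY) (x : Inst) : qk x.1 ≤ 14 * (3 * par x + 1) ^ 3 + 1 := by
  unfold qk bd par
  refine Nat.add_le_add_right (Nat.mul_le_mul_left _ (Nat.pow_le_pow_left ?_ 3)) 1
  have := (hG x.1).2
  omega

theorem uPoly_qk (hG : S_PGS) : UPoly (fun x : Inst => qk x.1) := by
  have h1 : UPoly (fun x : Inst => (gS x.1).length + 1) :=
    UPoly.add (UPoly.length (hG Inst (fun x => x.1) (Poly.fst Poly.id))) (UPoly.const 1)
  have h2 : UPoly (fun x : Inst => 14 * (((gS x.1).length + 1) * ((gS x.1).length + 1) *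
      ((gS x.1).length + 1)) + 1) := UPoly.add (UPoly.mul (UPoly.const 14)
      (UPoly.mul (UPoly.mul h1 h1) h1)) (UPoly.const 1)
  have e2 : (fun x : Inst => qk x.1) = fun x : Inst => 14 * (((gS x.1).length + 1) *
      ((gS x.1).length + 1) * ((gS x.1).length + 1)) + 1 :=
    funext fun x => by unfold qk bd; ring
  rw [e2]
  exact h2

attribute [local irreducible] qk expPad

theorem fptTime_pad (hG : S_PGS) (hG' : S_GREEDY) : FptTime par (fun x : Inst => pad x.1) := by
  unfold pad
  exact FptTime.comp (g := expPad) (f := fun x : Inst => List.replicate (qk x.1) ())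
    fptTime_expPad (FptTime.of_poly (uPoly_qk hG)) computable_q fun x => by
    rw [List.length_replicate]
    exact qk_le hG' x

attribute [local irreducible] pad

theorem fptTime_dec (hG : S_PGS) (hG' : S_GREEDY) (hOK : S_POK) (hR : S_PRUN) :
    FptTime par (fun x : Inst => dec x.1 x.2 (pad x.1)) := by
  have hpair : FptTime par (fun x : Inst => (x, pad x.1)) :=
    FptTime.pair (FptTime.of_poly Poly.id) (fptTime_pad hG hG')
  have hx : Poly (fun y : Inst × List Unit => y.1) := Poly.fst Poly.id
  exact FptTime.poly_comp (g := fun y : Inst × List Unit => dec y.1.1 y.1.2 y.2)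
    (poly_dec hG hOK hR (Poly.fst hx) (Poly.snd hx) (Poly.snd Poly.id)) hpair

theorem dec_spec (hG : S_GREEDY) (hCl : S_CLUS) (hE1 : S_EXT1) (hE2 : S_EXT2) (hC : S_COL)
    (hS : S_STEP) (M : List (List Bool)) (B : List ℕ) :
    dec M B (pad M) = true ↔ Bcp (M, B) := by
  constructor
  · intro h
    obtain ⟨W, hW⟩ := chk_of_dec _ _ _ h
    exact sound hG hC hE2 M B _ W hW
  · intro h
    obtain ⟨W, hsz, hW⟩ := complete hG hCl hE1 hS M B h
    have e : qk M = bd (gS M).length + 1 := by unfold qk; rfl
    refine dec_of_chk M B (pad M) W (hW _ ?_) ?_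
    · rw [pad_length, e]
      refine Nat.pow_le_pow_right (by norm_num) ?_
      unfold bd
      have h1 : (gS M).length + 1 ≤ ((gS M).length + 1) ^ 3 := Nat.le_self_pow (by norm_num) _
      omega
    · rw [pad_length, e]
      exact Nat.pow_le_pow_right (by norm_num) (Nat.add_le_add_right hsz 1)

theorem main' (hE1 : S_EXT1) (hE2 : S_EXT2) (hPS : S_PSTP) (hOK : S_POK) :
    IsFpt par (fun x : Inst => Bcp x) := by
  have hG := Pool.Agent.H261.CVG.GREEDY
  have hS : S_STEP := Pool.Agent.H178.CV.STEP Pool.Agent.H322.CVHORN.HORN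
    Pool.Agent.H249.CV.VAL Pool.Agent.H274.CV.BITS
  exact ⟨fun x => dec x.1 x.2 (pad x.1),
    fptTime_dec H772CVPGS.PGS hG hOK (Pool.Agent.H294.CV.PRUN hPS),
    fun x => dec_spec hG Pool.Agent.H409.CVCLUS.CLUS hE1 hE2 Pool.Agent.H672.CVCol.COL hS x.1 x.2⟩

end Pool.Agent.NPC.H683CV
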