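import Pool.Agent.H683.CV.Stm
import Pool.Graph.R_seed8.H628R2.FPTW

/-!
# Budgeted graph coloring: statements of the lemmas
-/

set_option autoImplicit false

namespace Pool.Agent.H683.CV

open Pool.Agent.NPC Pool.Agent.H633R2

/-- Sum of the `t` largest values. If `X ≤ ∑ T` for a set `T` of `t` elements, then
`X ≤ ∑_{i ∈ T} v i ≤ ∑_{i ∈ T} (l + (v i - l)) ≤ t * l + ∑_K (v i - l)`. Conversely let `T` be a set
of `t` elements of `K` with the largest values (for example a `T` of size `t` with maximal sum) and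
`l` the least value of `v` on `T` (`l = n` if `t = 0`); then all values outside `T` are `≤ l` and
`t * l + ∑_K (v i - l) = ∑_T v i`. -/
def S_TOP : Prop := ∀ (K : Finset ℕ) (n t X : ℕ) (v : ℕ → ℕ), (∀ i ∈ K, v i ≤ n) → t ≤ K.card →
  ((∀ l ≤ n, X ≤ t * l + ∑ i ∈ K, (v i - l)) ↔ ∃ T ⊆ K, T.card = t ∧ X ≤ ∑ i ∈ T, v i)

/-- Codes of sets: take `a = ∑_{j ∈ A} 2 ^ j`. -/
def S_BITS : Prop := ∀ (p : ℕ) (A : Finset ℕ), A ⊆ Finset.range p →
  ∃ a < 2 ^ p, ∀ j, bt a j = decide (j ∈ A)

/-- Necessary condition. `V` are vertices, `r v` is the clique of `v`, `P` are special colors with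
allowed pairs `al` and capacities `y`, `I` are the other colors with capacities `b`; every color is
used at most once in every clique. Count the vertices `v` with `r v ∈ T` and `al v ⊆ J (r v)` by
their colors: a color `i ∈ I` has at most `min (b i) |T|` of them, a color `j ∈ A` at most `y j`,
a color `j ∈ P \ A` at most one in each clique `k ∈ T` with `j ∈ J k`. -/
def S_HALL1 : Prop := ∀ (V K P I : Type) [Fintype V] [Fintype K] [Fintype P] [Fintype I]
  [DecidableEq V] [DecidableEq K] [DecidableEq P] [DecidableEq I]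
  (r : V → K) (al : V → P → Bool) (y : P → ℕ) (b : I → ℕ) (f : V → P ⊕ I),
  (∀ v j, f v = Sum.inl j → al v j = true) → (∀ u v, u ≠ v → r u = r v → f u ≠ f v) →
  (∀ j, (Finset.univ.filter fun v => f v = Sum.inl j).card ≤ y j) →
  (∀ i, (Finset.univ.filter fun v => f v = Sum.inr i).card ≤ b i) →
  ∀ (A : Finset P) (T : Finset K) (J : K → Finset P),
    ∑ k ∈ T, (Finset.univ.filter fun v => r v = k ∧ ∀ j, al v j = true → j ∈ J k).card ≤
      ∑ i, min (b i) T.card + ∑ j ∈ A, y j + ∑ k ∈ T, (J k \ A).card

/-- Sufficient condition (by Hall's theorem). Let `d = |K|`. Left nodes: the vertices `V`, and for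
each color `c ∈ P ⊕ I` with capacity `cap c` there are `d - min d (cap c)` dummies. Right nodes
(slots): pairs `(c, k)` of a color and a clique. A vertex `v` is joined to the slots `(c, r v)` with
`c` allowed (`c = inl j` with `al v j`, or `c = inr i`), a dummy of `c` to all slots `(c, k)`. A
matching of all left nodes gives `f`: color `c` uses at most `min d (cap c)` slots. Hall's condition
(`Finset.all_card_le_biUnion_card_iff_exists_injective`): let `W` be the set of vertices in a set
`L` of left nodes, `C0` the colors with a dummy in `L`, `n c` the number of cliques `k` such that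
some `v ∈ W` with `r v = k` may get `c`; then `|N(L)| ≥ ∑_{c ∈ C0} d + ∑_{c ∉ C0} n c` and
`|L| ≤ |W| + ∑_{c ∈ C0} (d - min d (cap c))`, so `|W| ≤ ∑_c min (cap c) (n c)` is enough. This is
the hypothesis for `T` = the cliques of the vertices of `W`, `A = {j | y j ≤ n j}` and
`J k = A ∪ {j | some v ∈ W with r v = k has al v j}`. -/
def S_HALL2 : Prop := ∀ (V K P I : Type) [Fintype V] [Fintype K] [Fintype P] [Fintype I]
  [DecidableEq V] [DecidableEq K] [DecidableEq P] [DecidableEq I]
  (r : V → K) (al : V → P → Bool) (y : P → ℕ) (b : I → ℕ),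
  (∀ (A : Finset P) (T : Finset K) (J : K → Finset P), (∀ k, A ⊆ J k) →
    ∑ k ∈ T, (Finset.univ.filter fun v => r v = k ∧ ∀ j, al v j = true → j ∈ J k).card ≤
      ∑ i, min (b i) T.card + ∑ j ∈ A, y j + ∑ k ∈ T, (J k \ A).card) →
  ∃ f : V → P ⊕ I, (∀ v j, f v = Sum.inl j → al v j = true) ∧
    (∀ u v, u ≠ v → r u = r v → f u ≠ f v) ∧
    (∀ j, (Finset.univ.filter fun v => f v = Sum.inl j).card ≤ y j) ∧
    ∀ i, (Finset.univ.filter fun v => f v = Sum.inr i).card ≤ b i

/-- `φ` is a proper budgeted coloring, in which the class `j` of `S` has color `col j`. -/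
def IsCol (M : List (List Bool)) (B : List ℕ) (Z : List (ℕ × ℕ)) (col φ : ℕ → ℕ) : Prop :=
  (∀ v < M.length, φ v < B.length) ∧
  (∀ u < M.length, ∀ v < M.length, adj M u v = true → φ u ≠ φ v) ∧
  (∀ i < B.length, ((Finset.range M.length).filter fun v => φ v = i).card ≤ B.getD i 0) ∧
  ∀ z ∈ Z, φ z.1 = col z.2

/-- `col` chooses different colors for the `p` classes, and `x_j` is the budget of the color of
class `j`, capped at `n`. -/
def IsSel (n : ℕ) (B : List ℕ) (p : ℕ) (col : ℕ → ℕ) (x : List ℕ) : Prop :=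
  (∀ j < p, col j < B.length) ∧ (∀ i < p, ∀ j < p, col i = col j → i = j) ∧
  ∀ j < p, x.getD j 0 = min (B.getD (col j) 0) n

/-- If a coloring exists then no constraint `(t, A)` is violated. Suppose `(t, A)` is violated. By
`S_TOP` (with `K = (reps M S).toFinset`, `v r = val … r A`, `X = rhs + 1 - (third term of lhs)`;
`val ≤ n` by definition) there are `t` cliques with `third term + ∑_{r ∈ T} val r A > rhs`. For
each of them `val r A` is `0` or is attained by some `J ⊇ A`. Apply `S_HALL1` to the coloring of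
the vertices outside `S` (cliques `reps`, special colors `Fin p` with `y j = x_j - siz_j`, other
colors: the indices `i < B.length` that are not some `col j`, with `b i = B_i`), and use
`∑_{i nonspecial} min (b i) t = ∑_{all i} min (B_i) t - ∑_j min (x_j) t` (note `t ≤ n`), and
`siz_j ≤ x_j`. -/
def S_EXT1 : Prop := ∀ (M : List (List Bool)) (B S cm x : List ℕ) (p : ℕ) (w : List Unit)
  (col φ : ℕ → ℕ), GoodS M S → cm.length = S.length → okZ M (S.zip cm) p = true →
  2 ^ p ≤ w.length → IsSel M.length B p col x → IsCol M B (S.zip cm) col φ →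
  ∀ t ≤ (reps M S).length, ∀ A < 2 ^ p, viol M B S (S.zip cm) p w x t A = false

/-- If no constraint is violated then a coloring exists. The constraint `(0, {j})` gives
`siz_j ≤ x_j`. By `S_HALL2` (with the same data as in `S_EXT1`) the vertices outside `S` can be
colored; the vertices of class `j` get the color `col j`. The hypothesis of `S_HALL2` for `(A, T,
J)` follows from the constraint `(|T|, A)` (coded by `S_BITS`) and the direction from right to left
of `S_TOP`, as `val r A ≥ wv r (J r) - |J r \ A|` (both sides are at most `n`). -/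
def S_EXT2 : Prop := ∀ (M : List (List Bool)) (B S cm x : List ℕ) (p : ℕ) (w : List Unit)
  (col : ℕ → ℕ), GoodS M S → cm.length = S.length → okZ M (S.zip cm) p = true →
  2 ^ p ≤ w.length → IsSel M.length B p col x →
  (∀ t ≤ (reps M S).length, ∀ A < 2 ^ p, viol M B S (S.zip cm) p w x t A = false) →
  ∃ φ, IsCol M B (S.zip cm) col φ

/-- The key lemma on raising. Let `A° = {j ∈ A | x j < t + s j}`. By `hP`, repeatedly,
`U A ≤ U A° + ∑_{j ∈ A \ A°} t`, hence (as `x j ≥ t + s j` for `j ∈ A \ A°`) the constraint `A°`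
is violated at `x`, too: `Fn + ∑_{A°} (x j - t) < U A° + ∑_{A°} s j + ∑_{p \ A°} min (x j) t`.
It holds at `x'`, and `min (x' j) t ≥ min (x j) t`; so `∑_{A°} (x' j - t) > ∑_{A°} (x j - t)`, and
there is `i ∈ A°` with `x' i > x i` and `x' i > t`. In particular `A°` is not empty. Let `j ∈ A°`
with maximal `x j` and suppose `x' j = x j`. Then `cl i ≠ cl j` by `hrig`. If `cl j < cl i` then
`x i ≥ x j + q + 1` by `hgap`, against the maximality. If `cl i < cl j` then
`x' i + q + 1 ≤ x' j = x j < t + s j ≤ t + q`, so `x' i < t`, a contradiction. -/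
def S_HORN : Prop := ∀ (p q t Fn : ℕ) (s x x' cl : ℕ → ℕ) (U : Finset ℕ → ℕ) (A : Finset ℕ),
  A ⊆ Finset.range p → (∀ j < p, s j ≤ q) →
  (∀ A' ⊆ Finset.range p, ∀ j ∈ A', U A' ≤ U (A'.erase j) + t) →
  (∀ j < p, x j ≤ x' j) →
  (∀ i < p, ∀ j < p, cl i = cl j → x' i + x j = x' j + x i) →
  (∀ i < p, ∀ j < p, cl j < cl i → x j + q + 1 ≤ x i) →
  (∀ i < p, ∀ j < p, cl j < cl i → x' j + q + 1 ≤ x' i) →
  (∀ A' ⊆ Finset.range p, U A' + ∑ j ∈ A', s j + ∑ j ∈ Finset.range p \ A', min (x' j) t ≤
    Fn + ∑ j ∈ A', (x' j - t)) →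
  Fn + ∑ j ∈ A, (x j - t) < U A + ∑ j ∈ A, s j + ∑ j ∈ Finset.range p \ A, min (x j) t →
  (∃ j ∈ A, x j < t + s j) ∧
  ∀ j ∈ A, x j < t + s j → (∀ i ∈ A, x i < t + s i → x i ≤ x j) → x j < x' j

/-- Removing `j` from `A` decreases `val` by at most one: every `J ⊇ A` also contains the smaller
set `A'`, and `|J \ A'| ≤ |J \ A| + 1`. -/
def S_VAL : Prop := ∀ (M : List (List Bool)) (S : List ℕ) (Z : List (ℕ × ℕ)) (p : ℕ)
  (w : List Unit) (r A A' j : ℕ), (∀ i < p, bt A' i = (bt A i && !decide (i = j))) →
  val M S Z p w r A ≤ val M S Z p w r A' + 1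

/-- Correctness of one step: if `x ≤ x'`, `x'` is a solution with the same pattern, then `nxt`
returns a class that must be raised, or `x` is a solution. The case of a violated constraint is
`S_HORN` with `U A = ` the minimum over `l ≤ n` of `t * l + ∑_r (val r a - l)`, `a` the code of `A`
(`S_BITS`; if `a < 2 ^ p` is any number, its set is `{j < p | bt a j}`, and `lhs`, `rhs` depend
only on the bits below `p`). The hypothesis on `U` follows from `S_VAL` (take `l + 1` for `l`, and
`l = n` if `l = n`, as `val ≤ n`). If `cl_i > cl_j` but `x_i ≤ x_j + q` then `x'_i > x_i`. If too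
many classes of one cluster have the value `x_j` and `x'_j = x_j` then the same classes have the
value `x'_j` at `x'`. -/
def S_STEP : Prop := ∀ (M : List (List Bool)) (B S : List ℕ) (Z : List (ℕ × ℕ)) (cl : List ℕ)
  (p : ℕ) (w : List Unit) (x x' : List ℕ), 2 ^ p ≤ w.length → Z.length ≤ S.length →
  (∀ j < p, x.getD j 0 ≤ x'.getD j 0) →
  (∀ i < p, ∀ j < p, cl.getD i 0 = cl.getD j 0 →
    x'.getD i 0 + x.getD j 0 = x'.getD j 0 + x.getD i 0) →
  ok M B S Z cl p w x' = true →
  (nxt M B S Z cl p w x = none → ok M B S Z cl p w x = true) ∧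
  ∀ j, nxt M B S Z cl p w x = some j → j < p ∧ x.getD j 0 < x'.getD j 0

/-- The cluster structure of a finite family of numbers: sort the values; whenever the next value
is at most `q` larger than the previous one, it belongs to the same cluster; `cl` is the number of
the cluster, `e j = x j - (least value of the cluster of j)`. (Induction on `p`, removing an
element with the largest value, works.) -/
def S_CLUS : Prop := ∀ (p q : ℕ) (x : ℕ → ℕ), ∃ cl e : ℕ → ℕ, (∀ j < p, cl j < p) ∧
  (∀ j < p, e j ≤ p * q ∧ e j ≤ x j) ∧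
  (∀ i < p, ∀ j < p, cl i = cl j → x i + e j = x j + e i) ∧
  ∀ i < p, ∀ j < p, cl j < cl i → x j + q + 1 ≤ x i

/-- Choice of different colors with the prescribed capped budgets: for each value `y` the indices
`i < B.length` with `min (B_i) n = y` are at least as many as the classes with `x_j = y`. -/
def S_COL : Prop := ∀ (n p : ℕ) (B x : List ℕ),
  (∀ y, ((Finset.range p).filter fun j => x.getD j 0 = y).card ≤ mul n B y) →
  ∃ col : ℕ → ℕ, IsSel n B p col x

end Pool.Agent.H683.CV
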