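import Pool.Agent.H683.CV.PLem
import Pool.Agent.H167.CV_PVIOL
import Pool.Agent.H707.CV_PVAL

/-!
# Budgeted graph coloring: one step and the final test are polynomial
-/

set_option autoImplicit false

namespace Pool.Agent.NPC.H683CV.PStep

open Pool.Agent.H633R2 Pool.Agent.H683.CV

variable {α : Type} [TEnc α]

theorem p_find {β : Type} [TEnc β] {l : α → List β} {P : α → β → Bool} (hl : Poly l)
    (hP : Poly (fun x : α × β => P x.1 x.2)) : Poly (fun a => (l a).find? (P a)) :=
  (Poly.head? (Poly.filter hl hP)).congr fun a => by rw [List.head?_filter]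

theorem p_g0 {x : α → List ℕ} {i : α → ℕ} (hx : Poly x) (hi : Poly i) :
    Poly (fun a => (x a).getD (i a) 0) := Poly.getD hx hi (Poly.const 0)

theorem p_prs {p : α → ℕ} (hp : UPoly p) : Poly (fun a => prs (p a)) := by
  unfold prs
  refine Poly.flatMap (l := fun a => List.range (p a)) (F := fun a i =>
    (List.range (p a)).map fun j => (i, j)) (UPoly.range hp) ?_
  have hn1 : UPoly (fun y : α × ℕ => p y.1) := hp.comp (Poly.fst Poly.id)
  refine Poly.map (l := fun y : α × ℕ => List.range (p y.1)) (F := fun y j => (y.2, j))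
    (UPoly.range hn1) ?_
  exact Poly.pair (Poly.snd (Poly.fst Poly.id)) (Poly.snd Poly.id)

theorem p_gapv {q : α → ℕ} {cl x : α → List ℕ} {t : α → ℕ × ℕ} (hq : Poly q) (hcl : Poly cl)
    (hx : Poly x) (ht : Poly t) : Poly (fun a => gapv (q a) (cl a) (x a) (t a)) := by
  unfold gapv
  have h1 : Poly (fun a => (t a).1) := Poly.fst ht
  have h2 : Poly (fun a => (t a).2) := Poly.snd ht
  exact Poly.and (Poly.decide_lt (p_g0 hcl h2) (p_g0 hcl h1))
    (Poly.decide_lt (p_g0 hx h1) (Poly.add (Poly.add (p_g0 hx h2) hq) (Poly.const 1)))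

theorem p_multv {n : α → ℕ} {B : α → List ℕ} {p : α → ℕ} {cl x : α → List ℕ} {j : α → ℕ}
    (hn : Poly n) (hB : Poly B) (hp : UPoly p) (hcl : Poly cl) (hx : Poly x) (hj : Poly j) :
    Poly (fun a => multv (n a) (B a) (p a) (cl a) (x a) (j a)) := by
  unfold multv mul
  have f1 : Poly (fun y : α × ℕ => y.1) := Poly.fst Poly.id
  have f2 : Poly (fun y : α × ℕ => y.2) := Poly.snd Poly.id
  refine Poly.decide_lt (Poly.length ?_) (Poly.length ?_)
  · exact Poly.filter (l := B) (p := fun a b => decide (min b (n a) = (x a).getD (j a) 0)) hB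
      (Poly.decide_eq (Poly.min f2 (hn.comp f1)) ((p_g0 hx hj).comp f1))
  · refine Poly.filter (l := fun a => List.range (p a)) (p := fun a i =>
      decide ((cl a).getD i 0 = (cl a).getD (j a) 0) &&
      decide ((x a).getD i 0 = (x a).getD (j a) 0)) (UPoly.range hp) ?_
    exact Poly.and (Poly.decide_eq (p_g0 (hcl.comp f1) f2) ((p_g0 hcl hj).comp f1))
      (Poly.decide_eq (p_g0 (hx.comp f1) f2) ((p_g0 hx hj).comp f1))

theorem p_tA {M : α → List (List Bool)} {S : α → List ℕ} {p : α → ℕ} {w : α → List Unit}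
    (hM : Poly M) (hS : Poly S) (hp : UPoly p) (hw : Poly w) :
    Poly (fun a => tA (M a) (S a) (p a) (w a)) := by
  unfold tA
  have f1 : Poly (fun y : α × ℕ => y.1) := Poly.fst Poly.id
  have f2 : Poly (fun y : α × ℕ => y.2) := Poly.snd Poly.id
  refine Poly.flatMap (l := fun a => List.range ((reps (M a) (S a)).length + 1))
    (F := fun a t => (subs (p a) (w a)).map fun A => (t, A))
    (UPoly.range (UPoly.add (UPoly.length (H167CV.p_reps hM hS)) (UPoly.const 1))) ?_
  refine Poly.map (l := fun y : α × ℕ => subs (p y.1) (w y.1)) (F := fun y A => (y.2, A))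
    (H707CVPVAL.poly_subs (hp.comp f1) (hw.comp f1)) ?_
  exact Poly.pair (Poly.snd (Poly.fst Poly.id)) (Poly.snd Poly.id)

theorem p_cand {Z : α → List (ℕ × ℕ)} {x : α → List ℕ} {t A j : α → ℕ} (hZ : Poly Z)
    (hx : Poly x) (ht : Poly t) (hA : Poly A) (hj : Poly j) :
    Poly (fun a => cand (Z a) (x a) (t a) (A a) (j a)) := by
  unfold cand
  exact Poly.and (H167CV.p_bt hA hj)
    (Poly.decide_lt (p_g0 hx hj) (Poly.add ht (H167CV.p_siz hZ hj)))

theorem p_pick {Z : α → List (ℕ × ℕ)} {x : α → List ℕ} {p t A : α → ℕ} (hZ : Poly Z)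
    (hx : Poly x) (hp : UPoly p) (ht : Poly t) (hA : Poly A) :
    Poly (fun a => (List.range (p a)).find? fun j => cand (Z a) (x a) (t a) (A a) j &&
      (List.range (p a)).all fun i => !cand (Z a) (x a) (t a) (A a) i ||
        decide ((x a).getD i 0 ≤ (x a).getD j 0)) := by
  have f1 : Poly (fun y : α × ℕ => y.1) := Poly.fst Poly.id
  have f2 : Poly (fun y : α × ℕ => y.2) := Poly.snd Poly.id
  refine p_find (l := fun a => List.range (p a)) (P := fun a j =>
    cand (Z a) (x a) (t a) (A a) j && (List.range (p a)).all fun i =>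
      !cand (Z a) (x a) (t a) (A a) i || decide ((x a).getD i 0 ≤ (x a).getD j 0))
    (UPoly.range hp) (Poly.and ?_ ?_)
  · exact p_cand (hZ.comp f1) (hx.comp f1) (ht.comp f1) (hA.comp f1) f2
  · refine Poly.all (l := fun y : α × ℕ => List.range (p y.1)) (p := fun y i =>
      !cand (Z y.1) (x y.1) (t y.1) (A y.1) i || decide ((x y.1).getD i 0 ≤ (x y.1).getD y.2 0))
      (UPoly.range (hp.comp f1)) ?_
    have g1 : Poly (fun y : (α × ℕ) × ℕ => y.1.1) := Poly.fst (Poly.fst Poly.id)
    have g2 : Poly (fun y : (α × ℕ) × ℕ => y.1.2) := Poly.snd (Poly.fst Poly.id)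
    have g3 : Poly (fun y : (α × ℕ) × ℕ => y.2) := Poly.snd Poly.id
    exact Poly.or (Poly.not (p_cand (hZ.comp g1) (hx.comp g1) (ht.comp g1) (hA.comp g1) g3))
      (Poly.decide_le (p_g0 (hx.comp g1) g3) (p_g0 (hx.comp g1) g2))

theorem p_nxt (hV : S_PVIOL) {M : α → List (List Bool)} {B S : α → List ℕ}
    {Z : α → List (ℕ × ℕ)} {cl : α → List ℕ} {p : α → ℕ} {w : α → List Unit} {x : α → List ℕ}
    (hM : Poly M) (hB : Poly B) (hS : Poly S) (hZ : Poly Z) (hcl : Poly cl) (hp : UPoly p)
    (hw : Poly w) (hx : Poly x) :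
    Poly (fun a => nxt (M a) (B a) (S a) (Z a) (cl a) (p a) (w a) (x a)) := by
  unfold nxt
  have k1 : Poly (fun a => (prs (p a)).find? (gapv (S a).length (cl a) (x a))) := by
    refine p_find (l := fun a => prs (p a)) (P := fun a t => gapv (S a).length (cl a) (x a) t)
      (p_prs hp) ?_
    have f1 : Poly (fun y : α × (ℕ × ℕ) => y.1) := Poly.fst Poly.id
    exact p_gapv ((Poly.length hS).comp f1) (hcl.comp f1) (hx.comp f1) (Poly.snd Poly.id)
  have k2 : Poly (fun a => (List.range (p a)).find?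
      (multv (M a).length (B a) (p a) (cl a) (x a))) := by
    refine p_find (l := fun a => List.range (p a))
      (P := fun a j => multv (M a).length (B a) (p a) (cl a) (x a) j) (UPoly.range hp) ?_
    have f1 : Poly (fun y : α × ℕ => y.1) := Poly.fst Poly.id
    exact p_multv ((Poly.length hM).comp f1) (hB.comp f1) (hp.comp f1) (hcl.comp f1)
      (hx.comp f1) (Poly.snd Poly.id)
  have k3 : Poly (fun a => (tA (M a) (S a) (p a) (w a)).find?
      (fun t => viol (M a) (B a) (S a) (Z a) (p a) (w a) (x a) t.1 t.2)) := by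
    refine p_find (l := fun a => tA (M a) (S a) (p a) (w a))
      (P := fun a t => viol (M a) (B a) (S a) (Z a) (p a) (w a) (x a) t.1 t.2)
      (p_tA hM hS hp hw) ?_
    have f1 : Poly (fun y : α × (ℕ × ℕ) => y.1) := Poly.fst Poly.id
    exact hV (α × (ℕ × ℕ)) (fun y => M y.1) (fun y => B y.1) (fun y => S y.1) (fun y => Z y.1)
      (fun y => p y.1) (fun y => w y.1) (fun y => x y.1) (fun y => y.2.1) (fun y => y.2.2)
      (hM.comp f1) (hB.comp f1) (hS.comp f1) (hZ.comp f1) (hp.comp f1) (hw.comp f1) (hx.comp f1)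
      (Poly.fst (Poly.snd Poly.id)) (Poly.snd (Poly.snd Poly.id))
  have f1 : Poly (fun y : α × (ℕ × ℕ) => y.1) := Poly.fst Poly.id
  have k4 := Poly.optCases (g := fun _ => (none : Option ℕ)) (h := fun a (t : ℕ × ℕ) =>
      (List.range (p a)).find? fun j => cand (Z a) (x a) t.1 t.2 j &&
          (List.range (p a)).all fun i => !cand (Z a) (x a) t.1 t.2 i ||
            decide ((x a).getD i 0 ≤ (x a).getD j 0)) k3 (Poly.const none)
    (p_pick (hZ.comp f1) (hx.comp f1) (hp.comp f1) (Poly.fst (Poly.snd Poly.id))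
      (Poly.snd (Poly.snd Poly.id)))
  have k5 := Poly.optCases (h := fun (_ : α) (j : ℕ) => some j) k2 k4
    (Poly.some (Poly.snd Poly.id))
  have k6 := Poly.optCases (h := fun (_ : α) (t : ℕ × ℕ) => some t.1) k1 k5
    (Poly.some (Poly.fst (Poly.snd Poly.id)))
  refine k6.congr fun a => ?_
  cases (prs (p a)).find? (gapv (S a).length (cl a) (x a)) with
  | some t => rfl
  | none =>
    cases (List.range (p a)).find? (multv (M a).length (B a) (p a) (cl a) (x a)) with
    | some j => rfl
    | none =>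
      cases (tA (M a) (S a) (p a) (w a)).find?
        (fun t => viol (M a) (B a) (S a) (Z a) (p a) (w a) (x a) t.1 t.2) with
      | some t => rfl
      | none => rfl

theorem p_raise {cl : α → List ℕ} {p : α → ℕ} {x : α → List ℕ} {j : α → ℕ} (hcl : Poly cl)
    (hp : UPoly p) (hx : Poly x) (hj : Poly j) :
    Poly (fun a => raise (cl a) (p a) (x a) (j a)) := by
  unfold raise
  have f1 : Poly (fun y : α × ℕ => y.1) := Poly.fst Poly.id
  have f2 : Poly (fun y : α × ℕ => y.2) := Poly.snd Poly.id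
  refine Poly.map (l := fun a => List.range (p a)) (F := fun a i => (x a).getD i 0 +
    if (cl a).getD i 0 = (cl a).getD (j a) 0 then 1 else 0) (UPoly.range hp) ?_
  exact Poly.add (p_g0 (hx.comp f1) f2) (Poly.ite
    (p := fun y : α × ℕ => (cl y.1).getD y.2 0 = (cl y.1).getD (j y.1) 0)
    (Poly.decide_eq (p_g0 (hcl.comp f1) f2) ((p_g0 hcl hj).comp f1)) (Poly.const 1)
    (Poly.const 0))

/-- One step is computed in polynomial time. -/
theorem PSTP : S_PVIOL → S_PSTP := by
  intro hV α _ M B S Z cl p w x hM hB hS hZ hcl hp hw hx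
  unfold stp
  have f1 : Poly (fun y : α × ℕ => y.1) := Poly.fst Poly.id
  refine (Poly.optCases (o := fun a => nxt (M a) (B a) (S a) (Z a) (cl a) (p a) (w a) (x a))
    (g := x) (h := fun a j => raise (cl a) (p a) (x a) j)
    (p_nxt hV hM hB hS hZ hcl hp hw hx) hx
    (p_raise (hcl.comp f1) (hp.comp f1) (hx.comp f1) (Poly.snd Poly.id))).congr fun a => ?_
  cases nxt (M a) (B a) (S a) (Z a) (cl a) (p a) (w a) (x a) <;> rfl

/-- The final test is computed in polynomial time. -/
theorem POK : S_PVIOL → S_POK := by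
  intro hV α _ M B S Z cl p w x hM hB hS hZ hcl hp hw hx
  unfold ok
  refine Poly.and (Poly.and ?_ ?_) ?_
  · refine Poly.all (l := fun a => prs (p a)) (p := fun a t => !gapv (S a).length (cl a) (x a) t)
      (p_prs hp) (Poly.not ?_)
    have f1 : Poly (fun y : α × (ℕ × ℕ) => y.1) := Poly.fst Poly.id
    exact p_gapv ((Poly.length hS).comp f1) (hcl.comp f1) (hx.comp f1) (Poly.snd Poly.id)
  · refine Poly.all (l := fun a => List.range (p a))
      (p := fun a j => !multv (M a).length (B a) (p a) (cl a) (x a) j) (UPoly.range hp)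
      (Poly.not ?_)
    have f1 : Poly (fun y : α × ℕ => y.1) := Poly.fst Poly.id
    exact p_multv ((Poly.length hM).comp f1) (hB.comp f1) (hp.comp f1) (hcl.comp f1)
      (hx.comp f1) (Poly.snd Poly.id)
  · refine Poly.all (l := fun a => tA (M a) (S a) (p a) (w a))
      (p := fun a t => !viol (M a) (B a) (S a) (Z a) (p a) (w a) (x a) t.1 t.2)
      (p_tA hM hS hp hw) (Poly.not ?_)
    have f1 : Poly (fun y : α × (ℕ × ℕ) => y.1) := Poly.fst Poly.id
    exact hV (α × (ℕ × ℕ)) (fun y => M y.1) (fun y => B y.1) (fun y => S y.1) (fun y => Z y.1)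
      (fun y => p y.1) (fun y => w y.1) (fun y => x y.1) (fun y => y.2.1) (fun y => y.2.2)
      (hM.comp f1) (hB.comp f1) (hS.comp f1) (hZ.comp f1) (hp.comp f1) (hw.comp f1) (hx.comp f1)
      (Poly.fst (Poly.snd Poly.id)) (Poly.snd (Poly.snd Poly.id))

end Pool.Agent.NPC.H683CV.PStep
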