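import Pool.Agent.H683.CV.Final
import Pool.Agent.H32.CV_EXT1
import Pool.Agent.H747.CV_EXT2
import Pool.Agent.H683.CV.PStep

/-!
# The Budgeted Coloring Problem is fixed-parameter tractable in the cluster vertex deletion number:
the final assembly
-/

set_option autoImplicit false

namespace Pool.Agent.NPC.H683CV

open Pool.Agent.H683.CV Pool.Agent.H633R2

theorem main : IsFpt (fun x : List (List Bool) × List ℕ => cvd x.1) Bcp :=
  main' (Pool.Agent.H32.CVE1.EXT1 Pool.Agent.H169.CVTOP.TOP Pool.Agent.H86.CV.HALL1)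
    (Pool.Agent.H747.CVExt.EXT2 Pool.Agent.H169.CVTOP.TOP Pool.Agent.H274.CV.BITS
      Pool.Agent.H784.CVHALL2.HALL2)
    (PStep.PSTP (H167CV.PVIOL H707CVPVAL.PVAL)) (PStep.POK (H167CV.PVIOL H707CVPVAL.PVAL))

end Pool.Agent.NPC.H683CV
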