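import Pool.Agent.H683.CV.Lem

/-!
# The run of the algorithm
-/

set_option autoImplicit false

namespace Pool.Agent.H683.CV

open Pool.Agent.NPC Pool.Agent.H633R2

theorem raise_getD (cl : List ℕ) (p : ℕ) (x : List ℕ) (j i : ℕ) (hi : i < p) :
    (raise cl p x j).getD i 0 = x.getD i 0 + if cl.getD i 0 = cl.getD j 0 then 1 else 0 := by
  unfold raise
  rw [List.getD_eq_getElem _ _ (by simpa using hi)]
  simp

theorem run_ok (hS : S_STEP) (M : List (List Bool)) (B S : List ℕ) (Z : List (ℕ × ℕ))
    (cl : List ℕ) (p : ℕ) (w : List Unit) (x' : List ℕ) (hw : 2 ^ p ≤ w.length)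
    (hZ : Z.length ≤ S.length) (h3 : ok M B S Z cl p w x' = true) :
    ∀ (m : ℕ) (x : List ℕ), (∀ j < p, x.getD j 0 ≤ x'.getD j 0) →
    (∀ i < p, ∀ j < p, cl.getD i 0 = cl.getD j 0 →
      x'.getD i 0 + x.getD j 0 = x'.getD j 0 + x.getD i 0) →
    ∑ j ∈ Finset.range p, (x'.getD j 0 - x.getD j 0) < m →
    ok M B S Z cl p w ((stp M B S Z cl p w)^[m] x) = true := by
  intro m
  induction m with
  | zero => intro x _ _ h; exact absurd h (Nat.not_lt_zero _)
  | succ m ih =>
    intro x h1 h2 h4
    obtain ⟨hn, hs⟩ := hS M B S Z cl p w x x' hw hZ h1 h2 h3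
    rw [Function.iterate_succ_apply]
    rcases hx : nxt M B S Z cl p w x with _ | j
    · have e : stp M B S Z cl p w x = x := by unfold stp; rw [hx]
      rw [e, Function.iterate_fixed e]
      exact hn hx
    · have e : stp M B S Z cl p w x = raise cl p x j := by unfold stp; rw [hx]
      rw [e]
      obtain ⟨hjp, hj⟩ := hs j hx
      have key : ∀ i < p, cl.getD i 0 = cl.getD j 0 → x.getD i 0 < x'.getD i 0 := by
        intro i hi hc
        have := h2 i hi j hjp hc
        omega
      refine ih _ ?_ ?_ ?_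
      · intro i hi
        rw [raise_getD _ _ _ _ _ hi]
        split
        · next hc => have := key i hi hc; omega
        · have := h1 i hi; omega
      · intro i hi k hk hc
        rw [raise_getD _ _ _ _ _ hi, raise_getD _ _ _ _ _ hk, hc]
        have := h2 i hi k hk hc
        omega
      · refine lt_of_lt_of_le (Finset.sum_lt_sum (g := fun i => x'.getD i 0 - x.getD i 0)
          (fun i hi => ?_) ⟨j, Finset.mem_range.2 hjp, ?_⟩) (Nat.lt_succ_iff.1 h4)
        · rw [raise_getD _ _ _ _ _ (Finset.mem_range.1 hi)]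
          split <;> omega
        · rw [raise_getD _ _ _ _ _ hjp, if_pos rfl]
          omega

theorem mem_tA (M : List (List Bool)) (S : List ℕ) (p : ℕ) (w : List Unit) (hw : 2 ^ p ≤ w.length)
    (t A : ℕ) : (t, A) ∈ tA M S p w ↔ t ≤ (reps M S).length ∧ A < 2 ^ p := by
  unfold tA subs
  rw [min_eq_left hw]
  simp only [List.mem_flatMap, List.mem_range, List.mem_map, Prod.mk.injEq]
  constructor
  · rintro ⟨a, ha, b, hb, rfl, rfl⟩
    exact ⟨by omega, hb⟩
  · rintro ⟨h1, h2⟩
    exact ⟨t, by omega, A, h2, rfl, rfl⟩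

theorem mem_prs (p i j : ℕ) : (i, j) ∈ prs p ↔ i < p ∧ j < p := by
  unfold prs
  simp only [List.mem_flatMap, List.mem_range, List.mem_map, Prod.mk.injEq]
  constructor
  · rintro ⟨a, ha, b, hb, rfl, rfl⟩
    exact ⟨ha, hb⟩
  · rintro ⟨h1, h2⟩
    exact ⟨i, h1, j, h2, rfl, rfl⟩

theorem ok_iff (M : List (List Bool)) (B S : List ℕ) (Z : List (ℕ × ℕ)) (cl : List ℕ) (p : ℕ)
    (w : List Unit) (x : List ℕ) (hw : 2 ^ p ≤ w.length) : ok M B S Z cl p w x = true ↔
    (∀ i < p, ∀ j < p, cl.getD j 0 < cl.getD i 0 →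
      x.getD j 0 + S.length + 1 ≤ x.getD i 0) ∧
    (∀ j < p, ((List.range p).filter fun i => decide (cl.getD i 0 = cl.getD j 0) &&
      decide (x.getD i 0 = x.getD j 0)).length ≤ mul M.length B (x.getD j 0)) ∧
    ∀ t ≤ (reps M S).length, ∀ A < 2 ^ p, viol M B S Z p w x t A = false := by
  unfold ok
  rw [Bool.and_eq_true, Bool.and_eq_true, List.all_eq_true, List.all_eq_true, List.all_eq_true,
    and_assoc]
  refine and_congr ?_ (and_congr ?_ ?_)
  · constructor
    · intro h i hi j hj hc
      have := h (i, j) ((mem_prs p i j).2 ⟨hi, hj⟩)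
      unfold gapv at this
      simp only [Bool.not_eq_true', Bool.and_eq_false_iff, decide_eq_false_iff_not, not_lt] at this
      rcases this with h | h
      · omega
      · exact h
    · rintro h ⟨i, j⟩ hij
      obtain ⟨hi, hj⟩ := (mem_prs p i j).1 hij
      unfold gapv
      simp only [Bool.not_eq_true', Bool.and_eq_false_iff, decide_eq_false_iff_not, not_lt]
      by_cases hc : cl.getD j 0 < cl.getD i 0
      · exact Or.inr (h i hi j hj hc)
      · exact Or.inl (by omega)
  · constructor
    · intro h j hj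
      have := h j (List.mem_range.2 hj)
      unfold multv at this
      simpa only [Bool.not_eq_true', decide_eq_false_iff_not, not_lt] using this
    · intro h j hj
      unfold multv
      simpa only [Bool.not_eq_true', decide_eq_false_iff_not, not_lt] using
        h j (List.mem_range.1 hj)
  · constructor
    · intro h t ht A hA
      have := h (t, A) ((mem_tA M S p w hw t A).2 ⟨ht, hA⟩)
      simpa using this
    · rintro h ⟨t, A⟩ htA
      obtain ⟨ht, hA⟩ := (mem_tA M S p w hw t A).1 htA
      simp [h t ht A hA]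

theorem count_le (M : List (List Bool)) (B S : List ℕ) (cl : List ℕ) (p : ℕ) (x : List ℕ)
    (h1 : ∀ i < p, ∀ j < p, cl.getD j 0 < cl.getD i 0 → x.getD j 0 + S.length + 1 ≤ x.getD i 0)
    (h2 : ∀ j < p, ((List.range p).filter fun i => decide (cl.getD i 0 = cl.getD j 0) &&
      decide (x.getD i 0 = x.getD j 0)).length ≤ mul M.length B (x.getD j 0)) (y : ℕ) :
    ((Finset.range p).filter fun j => x.getD j 0 = y).card ≤ mul M.length B y := by
  rcases ((Finset.range p).filter fun j => x.getD j 0 = y).eq_empty_or_nonempty with h | ⟨j, hj⟩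
  · rw [h]; exact Nat.zero_le _
  · rw [Finset.mem_filter, Finset.mem_range] at hj
    have h3 := h2 j hj.1
    rw [hj.2] at h3
    refine le_trans (le_of_eq ?_) h3
    have e : (List.range p).filter (fun i => decide (cl.getD i 0 = cl.getD j 0) &&
        decide (x.getD i 0 = y)) = (List.range p).filter (fun i => decide (x.getD i 0 = y)) := by
      refine List.filter_congr fun i hi => ?_
      have hi := List.mem_range.1 hi
      by_cases hy : x.getD i 0 = y
      · have hc : cl.getD i 0 = cl.getD j 0 := by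
          rcases lt_trichotomy (cl.getD i 0) (cl.getD j 0) with h | h | h
          · have := h1 j hj.1 i hi h; omega
          · exact h
          · have := h1 i hi j hj.1 h; omega
        rw [decide_eq_true hc, Bool.true_and]
      · rw [decide_eq_false hy, Bool.and_false]
    rw [e, Finset.card_def, Finset.filter_val, Finset.range_val]
    rw [← Multiset.coe_range, Multiset.filter_coe, Multiset.coe_card]

theorem bcp_of_col {M : List (List Bool)} {B : List ℕ} {Z : List (ℕ × ℕ)} {col φ : ℕ → ℕ}
    (h : IsCol M B Z col φ) : Bcp (M, B) := by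
  obtain ⟨h1, h2, h3, -⟩ := h
  refine ⟨fun v => ⟨φ v, h1 v v.2⟩, fun u v huv he => ?_, fun i => ?_⟩
  · refine h2 u u.2 v v.2 ?_ (congrArg Fin.val he)
    obtain ⟨hne, h⟩ := huv
    unfold adj
    rw [Bool.and_eq_true, decide_eq_true_iff, Bool.or_eq_true]
    exact ⟨fun e => hne (Fin.ext e), h⟩
  · have h4 := h3 i i.2
    rw [List.getD_eq_getElem _ _ i.2] at h4
    refine le_trans (le_of_eq ?_) h4
    rw [← Finset.card_map Fin.valEmbedding]
    congr 1
    ext v
    simp only [Finset.mem_map, Finset.mem_filter, Finset.mem_univ, true_and, Finset.mem_range,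
      Fin.valEmbedding_apply]
    constructor
    · rintro ⟨u, hu, rfl⟩
      exact ⟨u.2, congrArg Fin.val hu⟩
    · rintro ⟨hv, he⟩
      exact ⟨⟨v, hv⟩, Fin.ext he, rfl⟩

theorem sound (hG : S_GREEDY) (hC : S_COL) (hE : S_EXT2) (M : List (List Bool)) (B : List ℕ)
    (w : List Unit) (W : Cert) (h : chk M B w W = true) : Bcp (M, B) := by
  unfold chk at h
  rw [Bool.and_eq_true, Bool.and_eq_true, Bool.and_eq_true, Bool.and_eq_true, decide_eq_true_iff,
    decide_eq_true_iff, decide_eq_true_iff] at h
  obtain ⟨⟨⟨⟨h1, h2⟩, h3⟩, h4⟩, h5⟩ := h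
  rw [ok_iff _ _ _ _ _ _ _ _ h3] at h5
  obtain ⟨h6, h7, h8⟩ := h5
  obtain ⟨col, hcol⟩ := hC M.length _ B _ (count_le M B (gS M) _ _ _ h6 h7)
  obtain ⟨φ, hφ⟩ := hE M B (gS M) W.1 _ _ w col (hG M).1 h1 h4 h3 hcol h8
  exact bcp_of_col hφ

theorem mul_eq (n : ℕ) (B : List ℕ) (y : ℕ) :
    mul n B y = ((Finset.range B.length).filter fun i => min (B.getD i 0) n = y).card := by
  unfold mul
  rw [Finset.card_def, Finset.filter_val, Finset.range_val, ← Multiset.coe_range,
    Multiset.filter_coe, Multiset.coe_card]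
  have e : B = (List.range B.length).map fun i => B.getD i 0 := by
    refine List.ext_getElem (by simp) fun i h1 h2 => ?_
    rw [List.getElem_map, List.getElem_range, List.getD_eq_getElem _ _ h1]
  conv_lhs => rw [e]
  rw [List.filter_map, List.length_map]
  rfl

end Pool.Agent.H683.CV
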