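import Pool.Agent.H683.CV.Defs
import Pool.Graph.R_seed8.NPC.Dec

/-!
# Budgeted graph coloring, parameterized by the cluster vertex deletion number: the algorithm and
the statements of the lemmas

`M` is the matrix, `n = M.length`; `S` is the list of vertices of a cluster vertex deletion set;
the certificate gives the class `cm_i` of the `i`-th vertex of `S`, `Z` is the list of the pairs
`(vertex of S, class)`. The classes are `0, …, p - 1`; class `j` gets a color whose budget, capped
at `n`, is `x_j`. The classes are arranged in clusters (`cl_j` is the number of the cluster):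
inside a cluster the differences of the `x_j` are prescribed, different clusters are more than
`q = |S|` apart. The algorithm raises clusters one by one until all constraints are satisfied.
-/

set_option autoImplicit false

namespace Pool.Agent.H683.CV

open Pool.Agent.NPC Pool.Agent.H633R2

/-- Adjacency. -/
def adj (M : List (List Bool)) (u v : ℕ) : Bool :=
  decide (u ≠ v) && (entry M u v || entry M v u)

/-- `u` is not in the list `S`. -/
def nin (S : List ℕ) (u : ℕ) : Bool := S.all fun s => !decide (s = u)

/-- `t` is an induced path on three vertices outside `S`. -/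
def badT (M : List (List Bool)) (S : List ℕ) (t : ℕ × ℕ × ℕ) : Bool :=
  nin S t.1 && nin S t.2.1 && nin S t.2.2 && adj M t.1 t.2.1 && adj M t.2.1 t.2.2 &&
    decide (t.1 ≠ t.2.2) && !adj M t.1 t.2.2

/-- All triples of vertices. -/
def triples (n : ℕ) : List (ℕ × ℕ × ℕ) :=
  (List.range n).flatMap fun a => (List.range n).flatMap fun b =>
    (List.range n).map fun c => (a, b, c)

/-- Add the vertices of an induced path on three vertices to `S`. -/
def gstep (M : List (List Bool)) (S : List ℕ) : List ℕ :=
  match (triples M.length).find? (badT M S) with
  | some t => t.1 :: t.2.1 :: t.2.2 :: S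
  | none => S

/-- The greedy cluster vertex deletion set. -/
def gS (M : List (List Bool)) : List ℕ := (gstep M)^[M.length] []

/-- `S` is a list of different vertices such that the other vertices induce a cluster graph. -/
def GoodS (M : List (List Bool)) (S : List ℕ) : Prop :=
  S.Nodup ∧ (∀ v ∈ S, v < M.length) ∧ ∀ a < M.length, ∀ b < M.length, ∀ c < M.length,
    a ∉ S → b ∉ S → c ∉ S → adj M a b = true → adj M b c = true → a ≠ c → adj M a c = true

/-- Lemma. The greedy set is good and at most three times larger than the optimum. Every cluster
vertex deletion set contains at least one of the three vertices of each path added, and these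
triples are disjoint. After `n` steps no induced path on three vertices outside `S` is left,
because each successful step adds three new vertices below `n`. -/
def S_GREEDY : Prop := ∀ M : List (List Bool), GoodS M (gS M) ∧ (gS M).length ≤ 3 * cvd M

/-- The vertices outside `S`. -/
def vs (M : List (List Bool)) (S : List ℕ) : List ℕ := (List.range M.length).filter (nin S)

/-- The clique of the vertex `r`. -/
def clq (M : List (List Bool)) (S : List ℕ) (r : ℕ) : List ℕ :=
  (vs M S).filter fun v => decide (v = r) || adj M r v

/-- The least vertices of the cliques of `G - S`. -/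
def reps (M : List (List Bool)) (S : List ℕ) : List ℕ :=
  (vs M S).filter fun v => (vs M S).all fun u => !(adj M u v && decide (u < v))

/-- No vertex of class `j` is adjacent to `v` (so that `v` may get the color of class `j`). -/
def al (M : List (List Bool)) (Z : List (ℕ × ℕ)) (v j : ℕ) : Bool :=
  Z.all fun z => !(decide (z.2 = j) && adj M z.1 v)

/-- The size of class `j`. -/
def siz (Z : List (ℕ × ℕ)) (j : ℕ) : ℕ := (Z.filter fun z => decide (z.2 = j)).length

/-- Sets of classes are coded by numbers: is `j` in the set coded by `A`? -/
def bt (A j : ℕ) : Bool := A.bits.getD j false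

/-- The codes of the subsets of `{0, …, p - 1}` (if the pad `w` is long enough). -/
def subs (p : ℕ) (w : List Unit) : List ℕ := List.range (min (2 ^ p) w.length)

/-- The number of vertices of the clique of `r` whose allowed classes are all in `J`. -/
def wv (M : List (List Bool)) (S : List ℕ) (Z : List (ℕ × ℕ)) (p r J : ℕ) : ℕ :=
  ((clq M S r).filter fun v => (List.range p).all fun j => !al M Z v j || bt J j).length

/-- Is the set (coded by) `A` contained in `J`? -/
def sub (p A J : ℕ) : Bool := (List.range p).all fun j => !bt A j || bt J j

/-- The number of elements of `J` that are not in `A`. -/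
def dif (p A J : ℕ) : ℕ := ((List.range p).filter fun j => bt J j && !bt A j).length

/-- The maximum of `wv J - |J \ A|` over all sets `J` that contain `A`. -/
def val (M : List (List Bool)) (S : List ℕ) (Z : List (ℕ × ℕ)) (p : ℕ) (w : List Unit)
    (r A : ℕ) : ℕ :=
  ((List.range M.length).filter fun m => (subs p w).any fun J =>
    sub p A J && decide (m < wv M S Z p r J - dif p A J)).length

/-- Left hand side of the constraint `(t, A)`, for the number `l`. -/
def lhs (M : List (List Bool)) (S : List ℕ) (Z : List (ℕ × ℕ)) (p : ℕ) (w : List Unit)
    (x : List ℕ) (t A l : ℕ) : ℕ :=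
  t * l + ((reps M S).map fun r => val M S Z p w r A - l).sum +
    ((List.range p).map fun j => if bt A j = true then siz Z j else min (x.getD j 0) t).sum

/-- Right hand side of the constraint `(t, A)`. -/
def rhs (B : List ℕ) (p : ℕ) (x : List ℕ) (t A : ℕ) : ℕ :=
  (B.map fun b => min b t).sum +
    ((List.range p).map fun j => if bt A j = true then x.getD j 0 - t else 0).sum

/-- The constraint `(t, A)` is violated. -/
def viol (M : List (List Bool)) (B S : List ℕ) (Z : List (ℕ × ℕ)) (p : ℕ) (w : List Unit)
    (x : List ℕ) (t A : ℕ) : Bool :=
  (List.range (M.length + 1)).all fun l => decide (rhs B p x t A < lhs M S Z p w x t A l)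

/-- The list of the pairs `(t, A)`. -/
def tA (M : List (List Bool)) (S : List ℕ) (p : ℕ) (w : List Unit) : List (ℕ × ℕ) :=
  (List.range ((reps M S).length + 1)).flatMap fun t => (subs p w).map fun A => (t, A)

/-- Cluster `cl_i` is above `cl_j` but `x_i ≤ x_j + q`. -/
def gapv (q : ℕ) (cl x : List ℕ) (t : ℕ × ℕ) : Bool :=
  decide (cl.getD t.2 0 < cl.getD t.1 0) && decide (x.getD t.1 0 < x.getD t.2 0 + q + 1)

/-- All pairs of classes. -/
def prs (p : ℕ) : List (ℕ × ℕ) := (List.range p).flatMap fun i => (List.range p).map fun j => (i, j)

/-- The number of budgets that are, capped at `n`, equal to `y`. -/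
def mul (n : ℕ) (B : List ℕ) (y : ℕ) : ℕ := (B.filter fun b => decide (min b n = y)).length

/-- More classes of the cluster of `j` have value `x_j` than there are such budgets. -/
def multv (n : ℕ) (B : List ℕ) (p : ℕ) (cl x : List ℕ) (j : ℕ) : Bool :=
  decide (mul n B (x.getD j 0) < ((List.range p).filter fun i =>
    decide (cl.getD i 0 = cl.getD j 0) && decide (x.getD i 0 = x.getD j 0)).length)

/-- Candidates for raising, for the violated constraint `(t, A)`. -/
def cand (Z : List (ℕ × ℕ)) (x : List ℕ) (t A j : ℕ) : Bool :=
  bt A j && decide (x.getD j 0 < t + siz Z j)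

/-- The class whose cluster must be raised, if any. -/
def nxt (M : List (List Bool)) (B S : List ℕ) (Z : List (ℕ × ℕ)) (cl : List ℕ) (p : ℕ)
    (w : List Unit) (x : List ℕ) : Option ℕ :=
  match (prs p).find? (gapv S.length cl x) with
  | some t => some t.1
  | none =>
    match (List.range p).find? (multv M.length B p cl x) with
    | some j => some j
    | none =>
      match (tA M S p w).find? (fun t => viol M B S Z p w x t.1 t.2) with
      | some t => (List.range p).find? fun j => cand Z x t.1 t.2 j &&
          (List.range p).all fun i => !cand Z x t.1 t.2 i || decide (x.getD i 0 ≤ x.getD j 0)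
      | none => none

/-- Raise the cluster of `j`. -/
def raise (cl : List ℕ) (p : ℕ) (x : List ℕ) (j : ℕ) : List ℕ :=
  (List.range p).map fun i => x.getD i 0 + if cl.getD i 0 = cl.getD j 0 then 1 else 0

/-- One step. -/
def stp (M : List (List Bool)) (B S : List ℕ) (Z : List (ℕ × ℕ)) (cl : List ℕ) (p : ℕ)
    (w : List Unit) (x : List ℕ) : List ℕ :=
  match nxt M B S Z cl p w x with
  | some j => raise cl p x j
  | none => x

/-- All constraints are satisfied. -/
def ok (M : List (List Bool)) (B S : List ℕ) (Z : List (ℕ × ℕ)) (cl : List ℕ) (p : ℕ)
    (w : List Unit) (x : List ℕ) : Bool :=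
  (prs p).all (fun t => !gapv S.length cl x t) &&
  (List.range p).all (fun j => !multv M.length B p cl x j) &&
  (tA M S p w).all fun t => !viol M B S Z p w x t.1 t.2

/-- The classes given by the certificate make sense. -/
def okZ (M : List (List Bool)) (Z : List (ℕ × ℕ)) (p : ℕ) : Bool :=
  Z.all fun z => decide (z.2 < p) && Z.all fun y => !(decide (z.2 = y.2) && adj M z.1 y.1)

/-- Certificates: the classes `cm` of the vertices of `S`, the clusters `cl` and the initial
values `e` of the classes. -/
abbrev Cert : Type := List ℕ × List ℕ × List ℕ

/-- The verifier. -/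
def chk (M : List (List Bool)) (B : List ℕ) (w : List Unit) (W : Cert) : Bool :=
  decide (W.1.length = (gS M).length) && decide (W.2.2.length ≤ (gS M).length) &&
  decide (2 ^ W.2.2.length ≤ w.length) && okZ M ((gS M).zip W.1) W.2.2.length &&
  ok M B (gS M) ((gS M).zip W.1) W.2.1 W.2.2.length w
    ((stp M B (gS M) ((gS M).zip W.1) W.2.1 W.2.2.length w)^[M.length * M.length + 1] W.2.2)

/-- The decision procedure, given a pad. -/
def dec (M : List (List Bool)) (B : List ℕ) (w : List Unit) : Bool :=
  (List.range w.length).any fun c =>
    match unbits Cert c.bits.dropLast with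
    | none => false
    | some W => chk M B w W

end Pool.Agent.H683.CV
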